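import Mathlib

/-!
# The largest square in an odd-dimensional unit cube

`f(2, 2n+1) = √((8n+1)/8)` for every `n ≥ 1`.

A square of side `s` in the cube `[0,1]^N` gives side vectors `u, v` with `|u| = |v| = s`, `u ⟂ v` and
`|u_i| + |v_i| ≤ 1` for every coordinate.  With `c_i = u_i² - v_i²`, `p_i = 2 u_i v_i` and
`z_i = u_i² + v_i²` one has `∑ c_i = 0`, `∑ p_i = 0`, `z_i² = c_i² + p_i²`, `z_i + |p_i| ≤ 1`, and
`2 s² = ∑ z_i`; for odd `N` this forces `∑ (1 - z_i) ≥ 3/4`.
-/

set_option autoImplicit false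

namespace Pool.Agent.Results.MP_befaea_co.OddSquare

open Finset

/-- `s ≥ 0` is the edge of an `m`-dimensional cube inscribed in the unit cube `[0,1]^n`: some
isometric embedding `φ` of `ℝ^m` into `ℝ^n` maps `[0,s]^m` into `[0,1]^n`. -/
def IsInscribedEdge (m n : ℕ) (s : ℝ) : Prop :=
  0 ≤ s ∧ ∃ φ : EuclideanSpace ℝ (Fin m) → EuclideanSpace ℝ (Fin n), Isometry φ ∧
    ∀ x : EuclideanSpace ℝ (Fin m), (∀ i, 0 ≤ x i ∧ x i ≤ s) → ∀ j, 0 ≤ φ x j ∧ φ x j ≤ 1

/-! ### The upper bound -/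

/-- If an odd number of reals of absolute value at most `1` has sum `0`, then the sum of their
absolute values is at most their number minus one. -/
theorem sum_abs_le {n : ℕ} (c : Fin (2 * n + 1) → ℝ) (hc : ∀ i, |c i| ≤ 1) (h0 : ∑ i, c i = 0) :
    ∑ i, |c i| ≤ 2 * n := by
  classical
  set P : Finset (Fin (2 * n + 1)) := univ.filter (fun i => 0 ≤ c i) with hP
  set Q : Finset (Fin (2 * n + 1)) := univ.filter (fun i => ¬ 0 ≤ c i) with hQ
  have hsum : ∑ i ∈ P, c i + ∑ i ∈ Q, c i = 0 := by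
    rw [← h0]; exact Finset.sum_filter_add_sum_filter_not _ _ _
  have habs : ∑ i ∈ P, |c i| + ∑ i ∈ Q, |c i| = ∑ i, |c i| :=
    Finset.sum_filter_add_sum_filter_not _ _ _
  have hPa : ∑ i ∈ P, |c i| = ∑ i ∈ P, c i :=
    Finset.sum_congr rfl fun i hi => abs_of_nonneg (by simpa [hP] using hi)
  have hQa : ∑ i ∈ Q, |c i| = - ∑ i ∈ Q, c i := by
    rw [← Finset.sum_neg_distrib]
    exact Finset.sum_congr rfl fun i hi => abs_of_nonpos (le_of_lt (by simpa [hQ] using hi))
  have hPc : ∑ i ∈ P, |c i| ≤ (P.card : ℝ) := by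
    have := Finset.sum_le_card_nsmul P (fun i => |c i|) 1 fun i _ => hc i
    simpa using this
  have hQc : ∑ i ∈ Q, |c i| ≤ (Q.card : ℝ) := by
    have := Finset.sum_le_card_nsmul Q (fun i => |c i|) 1 fun i _ => hc i
    simpa using this
  have hcard : P.card + Q.card = 2 * n + 1 := by
    have := Finset.card_filter_add_card_filter_not (s := (univ : Finset (Fin (2 * n + 1))))
      (fun i => 0 ≤ c i)
    simpa [hP, hQ] using this
  have hlt : P.card ≤ n ∨ Q.card ≤ n := by omega
  rcases hlt with h | h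
  · have h' : (P.card : ℝ) ≤ n := by exact_mod_cast h
    linarith
  · have h' : (Q.card : ℝ) ≤ n := by exact_mod_cast h
    linarith

/-- The analytic core: the total loss `∑ (1 - z_i)` is at least `3/4`. -/
theorem core {n : ℕ} (c p z : Fin (2 * n + 1) → ℝ) (hz0 : ∀ i, 0 ≤ z i)
    (hz : ∀ i, z i ^ 2 = c i ^ 2 + p i ^ 2) (hzp : ∀ i, z i + |p i| ≤ 1)
    (hc0 : ∑ i, c i = 0) (hp0 : ∑ i, p i = 0) : 3 / 4 ≤ ∑ i, (1 - z i) := by
  classical
  by_contra hlt
  push Not at hlt
  set L : ℝ := ∑ i, (1 - z i) with hL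
  have hcz : ∀ i, |c i| ≤ z i := fun i => by
    apply abs_le_of_sq_le_sq _ (hz0 i)
    rw [hz i]; nlinarith [sq_nonneg (p i)]
  have hc1 : ∀ i, |c i| ≤ 1 := fun i => by
    have := hzp i; have := abs_nonneg (p i); have := hcz i; linarith
  have hlam : ∀ i, 0 ≤ 1 - z i := fun i => by
    have := hzp i; have := abs_nonneg (p i); linarith
  -- total deficiency of the `c i`
  have hd : 1 ≤ ∑ i, (1 - |c i|) := by
    have h1 := sum_abs_le c hc1 hc0
    rw [Finset.sum_sub_distrib]
    simp only [sum_const, card_univ, Fintype.card_fin, nsmul_eq_mul, mul_one]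
    push_cast
    linarith
  -- balance of the `p i`
  have hbal : ∀ i, |p i| ≤ ∑ j ∈ univ.erase i, (1 - z j) := fun i => by
    have h1 : p i = - ∑ j ∈ univ.erase i, p j := by
      have := Finset.add_sum_erase univ p (mem_univ i)
      linarith
    rw [h1, abs_neg]
    refine (Finset.abs_sum_le_sum_abs _ _).trans (Finset.sum_le_sum fun j _ => ?_)
    linarith [hzp j]
  have hsplit : ∀ i, (1 - z i) + ∑ j ∈ univ.erase i, (1 - z j) = L := fun i => by
    rw [hL]; exact Finset.add_sum_erase univ (fun j => 1 - z j) (mem_univ i)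
  have hpL : ∀ i, (1 - z i) + |p i| ≤ L := fun i => by
    have := hbal i; have := hsplit i; linarith
  have hp38 : ∀ i, |p i| < 3 / 8 := fun i => by
    have h1 := hpL i; have h2 := hzp i; linarith
  by_cases hB : ∃ i, 1 - z i < 3 / 4 * (1 - |c i|)
  · obtain ⟨i, hi⟩ := hB
    -- the bad coordinates have small `c`
    have hbad : ∀ j, 1 - z j < 3 / 4 * (1 - |c j|) → |c j| < 5 / 14 := by
      intro j hj
      have e1 : z j ^ 2 = |c j| ^ 2 + |p j| ^ 2 := by rw [sq_abs, sq_abs]; exact hz j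
      have e2 := hp38 j
      have e3 := hzp j
      have e4 := abs_nonneg (p j)
      have e5 := abs_nonneg (c j)
      have e6 := hc1 j
      have e7 := hz0 j
      set C := |c j| with hC
      set q := |p j| with hq
      set Z := z j with hZ
      have f1 : Z > 1 / 4 + 3 / 4 * C := by linarith
      -- `C < 1/2`
      have f2 : C < 1 / 2 := by
        by_contra hcon
        push Not at hcon
        have g1 : q ≤ 1 - Z := by linarith
        have g2 : q ^ 2 ≤ (1 - Z) ^ 2 := by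
          apply pow_le_pow_left₀ e4 g1
        nlinarith
      by_contra hcon
      push Not at hcon
      have g2 : q ^ 2 < (3 / 8) ^ 2 := by
        apply pow_lt_pow_left₀ e2 e4; norm_num
      nlinarith
    by_cases hB2 : ∃ j, j ≠ i ∧ 1 - z j < 3 / 4 * (1 - |c j|)
    · obtain ⟨j, hji, hj⟩ := hB2
      have hz52 : ∀ k, |c k| < 5 / 14 → z k < 13 / 25 := by
        intro k hk
        have e1 : z k ^ 2 = |c k| ^ 2 + |p k| ^ 2 := by rw [sq_abs, sq_abs]; exact hz k
        have g1 : |p k| ^ 2 < (3 / 8) ^ 2 := pow_lt_pow_left₀ (hp38 k) (abs_nonneg _) (by norm_num)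
        have g2 : |c k| ^ 2 < (5 / 14) ^ 2 := pow_lt_pow_left₀ hk (abs_nonneg _) (by norm_num)
        by_contra hcon
        push Not at hcon
        nlinarith [hz0 k]
      have h1 := hz52 i (hbad i hi)
      have h2 := hz52 j (hbad j hj)
      have h3 : (1 - z j) ≤ ∑ k ∈ univ.erase i, (1 - z k) :=
        Finset.single_le_sum (f := fun k => 1 - z k) (fun k _ => hlam k)
          (Finset.mem_erase.2 ⟨hji, mem_univ j⟩)
      have h4 := hsplit i
      linarith
    · push Not at hB2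
      have h1 : 3 / 4 * |c i| ≤ ∑ j ∈ univ.erase i, (1 - z j) := by
        have g1 : ∑ j ∈ univ.erase i, (3 / 4 * (1 - |c j|)) ≤ ∑ j ∈ univ.erase i, (1 - z j) :=
          Finset.sum_le_sum fun j hj => hB2 j (Finset.mem_erase.1 hj).1
        rw [← Finset.mul_sum] at g1
        have g2 : (1 - |c i|) + ∑ j ∈ univ.erase i, (1 - |c j|) = ∑ j, (1 - |c j|) :=
          Finset.add_sum_erase univ (fun j => 1 - |c j|) (mem_univ i)
        linarith
      have h2 := hsplit i
      have h3 := hpL i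
      have h4 := hbad i hi
      have e1 : z i ^ 2 = |c i| ^ 2 + |p i| ^ 2 := by rw [sq_abs, sq_abs]; exact hz i
      have e4 := abs_nonneg (p i)
      have e5 := abs_nonneg (c i)
      have e7 := hz0 i
      set C := |c i| with hC
      set q := |p i| with hq
      set Z := z i with hZ
      rcases le_total (3 / 4 * C) q with hcase | hcase
      · have : Z ≤ q + 1 / 4 := by
          apply le_of_sq_le_sq _ (by linarith)
          nlinarith
        linarith
      · have : Z ≤ 5 / 4 * C := by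
          apply le_of_sq_le_sq _ (by linarith)
          nlinarith
        linarith
  · push Not at hB
    have h1 : ∑ j, (3 / 4 * (1 - |c j|)) ≤ ∑ j, (1 - z j) := Finset.sum_le_sum fun j _ => hB j
    rw [← Finset.mul_sum] at h1
    linarith

/-- The side vectors of an inscribed square satisfy `s² ≤ n + 1/8`. -/
theorem vec_bound {n : ℕ} (u v : Fin (2 * n + 1) → ℝ) (s : ℝ) (hu : ∑ i, u i ^ 2 = s ^ 2)
    (hv : ∑ i, v i ^ 2 = s ^ 2) (huv : ∑ i, u i * v i = 0) (h1 : ∀ i, |u i| + |v i| ≤ 1) :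
    s ^ 2 ≤ n + 1 / 8 := by
  have key := core (fun i => u i ^ 2 - v i ^ 2) (fun i => 2 * (u i * v i))
    (fun i => u i ^ 2 + v i ^ 2) (fun i => by positivity) (fun i => by ring) (fun i => ?_)
    (by rw [Finset.sum_sub_distrib, hu, hv, sub_self])
    (by rw [← Finset.mul_sum, huv, mul_zero])
  · rw [Finset.sum_sub_distrib, Finset.sum_add_distrib, hu, hv] at key
    simp only [sum_const, card_univ, Fintype.card_fin, nsmul_eq_mul, mul_one] at key
    push_cast at key
    linarith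
  · have e : |2 * (u i * v i)| = 2 * (|u i| * |v i|) := by
      rw [abs_mul, abs_mul, abs_two]
    have := h1 i
    have a1 := abs_nonneg (u i)
    have a2 := abs_nonneg (v i)
    simp only [e]
    rw [← sq_abs (u i), ← sq_abs (v i)]
    nlinarith

theorem upper {n : ℕ} {s : ℝ} (h : IsInscribedEdge 2 (2 * n + 1) s) : s ^ 2 ≤ n + 1 / 8 := by
  obtain ⟨hs, φ, hφ, hin⟩ := h
  -- the four vertices
  set e0 : EuclideanSpace ℝ (Fin 2) := EuclideanSpace.single 0 s with he0
  set e1 : EuclideanSpace ℝ (Fin 2) := EuclideanSpace.single 1 s with he1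
  let ψ := hφ.affineIsometryOfStrictConvexSpace
  have hψ : ∀ x, ψ x = φ x := fun x => rfl
  set u : EuclideanSpace ℝ (Fin (2 * n + 1)) := ψ.linearIsometry e0 with hu
  set v : EuclideanSpace ℝ (Fin (2 * n + 1)) := ψ.linearIsometry e1 with hv
  have hadd : ∀ x, φ x = ψ.linearIsometry x + φ 0 := fun x => by
    have := ψ.map_vadd 0 x
    simpa [hψ] using this
  have hA : ∀ i, 0 ≤ φ 0 i ∧ φ 0 i ≤ 1 := hin 0 (fun i => by simp [hs])
  have hB : ∀ i, 0 ≤ (u i + φ 0 i) ∧ (u i + φ 0 i) ≤ 1 := by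
    intro i
    have := hin e0 (fun j => by fin_cases j <;> simp [he0, hs]) i
    rw [hadd e0] at this
    simpa using this
  have hC : ∀ i, 0 ≤ (v i + φ 0 i) ∧ (v i + φ 0 i) ≤ 1 := by
    intro i
    have := hin e1 (fun j => by fin_cases j <;> simp [he1, hs]) i
    rw [hadd e1] at this
    simpa using this
  have hD : ∀ i, 0 ≤ (u i + v i + φ 0 i) ∧ (u i + v i + φ 0 i) ≤ 1 := by
    intro i
    have := hin (e0 + e1) (fun j => by fin_cases j <;> simp [he0, he1, hs]) i
    rw [hadd (e0 + e1), map_add] at this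
    simpa using this
  have hnu : ‖u‖ = s := by
    rw [hu, LinearIsometry.norm_map, he0, PiLp.norm_single, Real.norm_of_nonneg hs]
  have hnv : ‖v‖ = s := by
    rw [hv, LinearIsometry.norm_map, he1, PiLp.norm_single, Real.norm_of_nonneg hs]
  have huv : inner ℝ u v = (0 : ℝ) := by
    rw [hu, hv, LinearIsometry.inner_map_map, he0, he1]
    simp [EuclideanSpace.inner_single_left]
  refine vec_bound (fun i => u i) (fun i => v i) s ?_ ?_ ?_ ?_
  · rw [← hnu, EuclideanSpace.norm_sq_eq]; simp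
  · rw [← hnv, EuclideanSpace.norm_sq_eq]; simp
  · rw [← huv, PiLp.inner_apply]
    exact Finset.sum_congr rfl fun i _ => by simp [mul_comm]
  · intro i
    have a1 := hA i; have a2 := hB i; have a3 := hC i; have a4 := hD i
    rcases le_total 0 (u i) with h1 | h1 <;> rcases le_total 0 (v i) with h2 | h2
    · rw [abs_of_nonneg h1, abs_of_nonneg h2]; linarith [a1.1, a4.2]
    · rw [abs_of_nonneg h1, abs_of_nonpos h2]; linarith [a2.2, a3.1]
    · rw [abs_of_nonpos h1, abs_of_nonneg h2]; linarith [a3.2, a2.1]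
    · rw [abs_of_nonpos h1, abs_of_nonpos h2]; linarith [a1.2, a4.1]

/-! ### The construction -/

/-- First side vector: `3/4, 3/4, 0, 1, 0, 1, 0, …`. -/
noncomputable def U (j : ℕ) : ℝ := if j ≤ 1 then 3 / 4 else if Odd j then 1 else 0

/-- Second side vector: `1/4, -1/4, 1, 0, 1, 0, 1, …`. -/
noncomputable def V (j : ℕ) : ℝ :=
  if j = 0 then 1 / 4 else if j = 1 then -1 / 4 else if Odd j then 0 else 1

theorem odd_aux (k : ℕ) : Odd (2 * k + 3) := ⟨k + 1, by ring⟩

theorem even_aux (k : ℕ) : ¬ Odd (2 * k + 2) := by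
  rw [Nat.not_odd_iff_even]; exact ⟨k + 1, by ring⟩

theorem U_odd (k : ℕ) : U (2 * k + 3) = 1 := by
  unfold U; rw [if_neg (by omega), if_pos (odd_aux k)]

theorem U_even (k : ℕ) : U (2 * k + 2) = 0 := by
  unfold U; rw [if_neg (by omega), if_neg (even_aux k)]

theorem V_odd (k : ℕ) : V (2 * k + 3) = 0 := by
  unfold V; rw [if_neg (by omega), if_neg (by omega), if_pos (odd_aux k)]

theorem V_even (k : ℕ) : V (2 * k + 2) = 1 := by
  unfold V; rw [if_neg (by omega), if_neg (by omega), if_neg (even_aux k)]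

theorem U_zero : U 0 = 3 / 4 := by simp [U]
theorem U_one : U 1 = 3 / 4 := by simp [U]
theorem V_zero : V 0 = 1 / 4 := by simp [V]
theorem V_one : V 1 = -1 / 4 := by simp [V]

theorem step (f : ℕ → ℝ) (n : ℕ) : ∑ j ∈ Finset.range (2 * (n + 1 + 1) + 1), f j =
    ∑ j ∈ Finset.range (2 * (n + 1) + 1), f j + f (2 * n + 3) + f (2 * (n + 1) + 2) := by
  rw [show 2 * (n + 1 + 1) + 1 = (2 * (n + 1) + 1) + 1 + 1 by ring, Finset.sum_range_succ,
    Finset.sum_range_succ]
  congr 2

theorem start (f : ℕ → ℝ) : ∑ j ∈ Finset.range (2 * (0 + 1) + 1), f j =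
    f 0 + f 1 + f (2 * 0 + 2) := by
  simp [Finset.sum_range_succ]

theorem sum_UU (n : ℕ) : ∑ j ∈ Finset.range (2 * (n + 1) + 1), U j ^ 2 = (n + 1 : ℝ) + 1 / 8 := by
  induction n with
  | zero => rw [start, U_zero, U_one, U_even]; norm_num
  | succ n ih => rw [step, ih, U_odd, U_even]; push_cast; ring

theorem sum_VV (n : ℕ) : ∑ j ∈ Finset.range (2 * (n + 1) + 1), V j ^ 2 = (n + 1 : ℝ) + 1 / 8 := by
  induction n with
  | zero => rw [start, V_zero, V_one, V_even]; norm_num
  | succ n ih => rw [step, ih, V_odd, V_even]; push_cast; ring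

theorem sum_UV (n : ℕ) : ∑ j ∈ Finset.range (2 * (n + 1) + 1), U j * V j = 0 := by
  induction n with
  | zero => rw [start, U_zero, U_one, V_zero, V_one, U_even]; norm_num
  | succ n ih => rw [step, ih, V_odd, U_even]; ring

theorem abs_UV (j : ℕ) : |U j| + |V j| ≤ 1 := by
  rcases Nat.lt_or_ge j 2 with h | h
  · interval_cases j
    · rw [U_zero, V_zero]; norm_num [abs_of_pos]
    · rw [U_one, V_one, abs_of_pos (by norm_num), abs_of_neg (by norm_num)]; norm_num
  · rcases Nat.even_or_odd j with ⟨k, hk⟩ | ⟨k, hk⟩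
    · obtain ⟨l, rfl⟩ : ∃ l, j = 2 * l + 2 := ⟨k - 1, by omega⟩
      rw [U_even, V_even]; norm_num
    · obtain ⟨l, rfl⟩ : ∃ l, j = 2 * l + 3 := ⟨k - 1, by omega⟩
      rw [U_odd, V_odd]; norm_num

theorem lower (n : ℕ) (hn : 1 ≤ n) :
    IsInscribedEdge 2 (2 * n + 1) (√((8 * n + 1) / 8)) := by
  obtain ⟨m, rfl⟩ : ∃ m, n = m + 1 := ⟨n - 1, by omega⟩
  set s : ℝ := √((8 * ((m + 1 : ℕ) : ℝ) + 1) / 8) with hs
  have hs2 : s ^ 2 = ((m : ℝ) + 1) + 1 / 8 := by
    rw [hs, Real.sq_sqrt (by positivity)]; push_cast; ring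
  have hs0 : 0 < s := by rw [hs]; positivity
  refine ⟨hs0.le, ?_⟩
  set N := 2 * (m + 1) + 1 with hN
  let u : EuclideanSpace ℝ (Fin N) := WithLp.toLp 2 fun j => U j
  let v : EuclideanSpace ℝ (Fin N) := WithLp.toLp 2 fun j => V j
  let o : EuclideanSpace ℝ (Fin N) := WithLp.toLp 2 fun j => (1 - U j - V j) / 2
  have huu : inner ℝ u u = (s ^ 2 : ℝ) := by
    rw [PiLp.inner_apply, hs2, ← sum_UU m, ← Fin.sum_univ_eq_sum_range (fun j => U j ^ 2)]
    exact Finset.sum_congr rfl fun i _ => by simp [u, sq]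
  have hvv : inner ℝ v v = (s ^ 2 : ℝ) := by
    rw [PiLp.inner_apply, hs2, ← sum_VV m, ← Fin.sum_univ_eq_sum_range (fun j => V j ^ 2)]
    exact Finset.sum_congr rfl fun i _ => by simp [v, sq]
  have huv : inner ℝ u v = (0 : ℝ) := by
    rw [PiLp.inner_apply, ← sum_UV m, ← Fin.sum_univ_eq_sum_range (fun j => U j * V j)]
    exact Finset.sum_congr rfl fun i _ => by simp [u, v, mul_comm]
  refine ⟨fun x => o + (x 0 / s) • u + (x 1 / s) • v, ?_, ?_⟩
  · refine Isometry.of_dist_eq fun x y => ?_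
    rw [dist_eq_norm, EuclideanSpace.dist_eq]
    have e : (o + (x 0 / s) • u + (x 1 / s) • v) - (o + (y 0 / s) • u + (y 1 / s) • v) =
        ((x 0 - y 0) / s) • u + ((x 1 - y 1) / s) • v := by
      rw [sub_div, sub_div, sub_smul, sub_smul]; abel
    rw [e, ← Real.sqrt_sq (norm_nonneg _)]
    congr 1
    have e2 : ‖((x 0 - y 0) / s) • u + ((x 1 - y 1) / s) • v‖ ^ 2 =
        (x 0 - y 0) ^ 2 + (x 1 - y 1) ^ 2 := by
      rw [← real_inner_self_eq_norm_sq]
      simp only [inner_add_left, inner_add_right, inner_smul_left, inner_smul_right,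
        conj_trivial, huu, hvv, huv, real_inner_comm u v]
      field_simp
      ring
    rw [e2, Fin.sum_univ_two, Real.dist_eq, Real.dist_eq, sq_abs, sq_abs]
  · intro x hx j
    have h0 := hx 0
    have h1 := hx 1
    have ht0 : 0 ≤ x 0 / s := div_nonneg h0.1 hs0.le
    have ht1 : x 0 / s ≤ 1 := (div_le_one hs0).2 h0.2
    have hr0 : 0 ≤ x 1 / s := div_nonneg h1.1 hs0.le
    have hr1 : x 1 / s ≤ 1 := (div_le_one hs0).2 h1.2
    have e : (o + (x 0 / s) • u + (x 1 / s) • v) j =
        1 / 2 + (x 0 / s - 1 / 2) * U j + (x 1 / s - 1 / 2) * V j := by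
      simp [o, u, v]; ring
    have hUV := abs_UV j
    set t := x 0 / s
    set r := x 1 / s
    have b1 : |(t - 1 / 2) * U j| ≤ 1 / 2 * |U j| := by
      rw [abs_mul]
      exact mul_le_mul_of_nonneg_right (abs_le.2 ⟨by linarith, by linarith⟩) (abs_nonneg _)
    have b2 : |(r - 1 / 2) * V j| ≤ 1 / 2 * |V j| := by
      rw [abs_mul]
      exact mul_le_mul_of_nonneg_right (abs_le.2 ⟨by linarith, by linarith⟩) (abs_nonneg _)
    have c1 := abs_le.1 b1
    have c2 := abs_le.1 b2
    show 0 ≤ (o + t • u + r • v) j ∧ (o + t • u + r • v) j ≤ 1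
    rw [e]
    constructor <;> linarith [c1.1, c1.2, c2.1, c2.2]

/-- For every `n ≥ 1`, the largest edge of a square inscribed in the unit cube of dimension `2n+1`
is `f(2, 2n+1) = √((8n+1)/8)`. -/
theorem result (n : ℕ) (hn : 1 ≤ n) :
    IsGreatest {s : ℝ | IsInscribedEdge 2 (2 * n + 1) s} (√((8 * n + 1) / 8)) := by
  refine ⟨lower n hn, fun s hs => ?_⟩
  have h := upper hs
  apply Real.le_sqrt_of_sq_le
  linarith

end Pool.Agent.Results.MP_befaea_co.OddSquare
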